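import Pool.Agent.Results.MP_1906c1_mp.AllTimes
import Pool.Agent.Q218.LE.Out
import Pool.Agent.Q218.WE.LipZ
import Pool.Agent.Q150.WE.LIPK
import Pool.Agent.Q95.LE.GAU
import Pool.Agent.Q91.LE.SPL
import Pool.Agent.Q257.LE.NET
import Pool.Agent.Q176.LE.CubeT
import Pool.Agent.Q246.LE.EXP
import Pool.Agent.Q246.LE.FOUR
import Pool.Agent.Q237.LE.MEAS
import Pool.Agent.Q211.LE.SYM
import Pool.Agent.Q285.LE.THL

set_option autoImplicit false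

open scoped BigOperators ENNReal Topology
open MeasureTheory Filter ProbabilityTheory

namespace Pool.Agent.Results.MP_1906c1_mp.LocalQuantumErgodicity

open Pool.Agent.Results.MP_1906c1_mp.QuantumDiffusion (H neg_law)
open Pool.Agent.Results.MP_1906c1_mp.AllTimes (box LocalEigenSystem)
open Pool.Agent.TH794.QD (hmk HS)
open Pool.Agent.H4R2.LO (bx)
open Pool.Agent.Q218.UD (D0 D1)
open Pool.Agent.Q218.LE

/-- the mean value of `f` over the box of radius `r` around `x` -/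
noncomputable def average {d : ℕ} (r : ℕ) (f : (Fin d → ℤ) → ℝ) (x : Fin d → ℤ) : ℝ :=
  ((box x r).card : ℝ)⁻¹ * ∑ y ∈ box x r, f y

/-- **Local quantum ergodicity** for the observable `a` on the box `Λ` with the centre `b` and the
radius `L`: whatever the amplitude `ρ`, `|ρ| ≤ 1`, with `|ρ(x) - ρ(y)| ≤ |σ|^{2.06/d} |x - y|`, and
the radius `r ≤ |σ|^{-2.011}` are, the expectation values of `f = a ρ` and of its local average
`f_r` in the eigenfunctions agree, in the sense that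
`∑_j (∑_{x ∈ Λ} (f(x) - f_r(x)) |φ_j(x)|²)² ≤ ε |Λ|`, for every local eigensystem. -/
def Ergodic {d : ℕ} (σ ε : ℝ) (ξ a : (Fin d → ℤ) → ℝ) (b : Fin d → ℤ) (L : ℕ) : Prop :=
  ∀ ρ : (Fin d → ℤ) → ℝ, (∀ x, |ρ x| ≤ 1) →
    (∀ x y, |ρ x - ρ y| ≤ |σ| ^ (206 / 100 / d : ℝ) * ‖x - y‖) →
  ∀ r : ℕ, (r : ℝ) ≤ |σ| ^ (-(2011 / 1000) : ℝ) →
  ∀ (J : Type) (φ : J → (Fin d → ℤ) → ℂ) (e : J → ℝ), LocalEigenSystem σ ξ b L φ e →
  ∀ s : Finset J,
    ∑ j ∈ s, (∑ x ∈ box b L,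
      (a x * ρ x - average r (fun y => a y * ρ y) x) * ‖φ j x‖ ^ 2) ^ 2 ≤ ε * (box b L).card

theorem ergodic_of_good {d : ℕ} {σ ε : ℝ} {a ω ξ : (Fin d → ℤ) → ℝ} {b : Fin d → ℤ} {L : ℕ}
    (hωξ : ∀ x, -(σ * ξ x) = |σ| * ω x) (h : Good d |σ| (206 / 100 / d) ε a ω b L) :
    Ergodic σ ε ξ a b L := by
  intro ρ hρ1 hρ2 r hr J φ e hφ s
  exact h ρ hρ1 hρ2 r hr J (fun j => (hmk (φ j) (hφ.norm j).summable : HS d))
    (Pool.Agent.Q218.AD.ortho φ hφ.norm hφ.orth) (fun j => -e j) (fun j x hx => by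
      have h3 := hφ.eigen j x hx
      show -Pool.Agent.W788.LD.Spec.S (φ j) x + ((|σ| * ω x : ℝ) : ℂ) * φ j x =
        ((-e j : ℝ) : ℂ) * φ j x
      rw [← hωξ x]
      unfold H at h3
      unfold Pool.Agent.W788.LD.Spec.S
      push_cast at h3 ⊢
      linear_combination (-1 : ℂ) * h3) s

/-- **Theorem.** Gaussian disorder, `d ≥ 3`. For every weight `a`, `|a| ≤ 1`, and every small `σ`, the
expectation values of `a ρ` and of its local averages on the scale `|σ|^{-2.011}` agree for almost all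
eigenfunctions (`Ergodic`): (i) for a given box of radius `L ≥ |σ|^{-2.1}`, for all `ρ`, `r`, with
probability at least `1 - exp(-|σ|^{2.06} |Λ|)`; (ii) with probability at least
`1 - exp(-|σ|^{-2.1})` for all boxes with `log(1 + |b|) ≤ |σ|^{2.1} |Λ|`; (iii) almost surely for all
large boxes with this property. -/
theorem result (d : ℕ) (hd : 3 ≤ d) (ε : ℝ) (hε : 0 < ε) :
    ∃ σ₀ : ℝ, 0 < σ₀ ∧ ∀ σ : ℝ, 0 < |σ| → |σ| ≤ σ₀ →
      ∀ a : (Fin d → ℤ) → ℝ, (∀ x, |a x| ≤ 1) →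
      (∀ (b : Fin d → ℤ) (L : ℕ), |σ| ^ (-(21 / 10) : ℝ) ≤ L →
        ∃ G : Set ((Fin d → ℤ) → ℝ), MeasurableSet G ∧
          1 - Real.exp (-(|σ| ^ (206 / 100 : ℝ) * (box b L).card)) ≤
            (Measure.infinitePi fun _ : Fin d → ℤ => gaussianReal 0 1).real G ∧
          ∀ ξ ∈ G, Ergodic σ ε ξ a b L) ∧
      (∃ G : Set ((Fin d → ℤ) → ℝ), MeasurableSet G ∧
        1 - Real.exp (-|σ| ^ (-(21 / 10) : ℝ)) ≤
          (Measure.infinitePi fun _ : Fin d → ℤ => gaussianReal 0 1).real G ∧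
        ∀ ξ ∈ G, ∀ (b : Fin d → ℤ) (L : ℕ), |σ| ^ (-(21 / 10) : ℝ) ≤ L →
          Real.log (1 + ‖b‖) ≤ |σ| ^ (21 / 10 : ℝ) * (box b L).card → Ergodic σ ε ξ a b L) ∧
      (∀ᵐ ξ ∂(Measure.infinitePi fun _ : Fin d → ℤ => gaussianReal 0 1),
        ∃ L₀ : ℕ, ∀ (b : Fin d → ℤ) (L : ℕ), L₀ ≤ L →
          Real.log (1 + ‖b‖) ≤ |σ| ^ (21 / 10 : ℝ) * (box b L).card → Ergodic σ ε ξ a b L) := by
  obtain ⟨l0, hl0, hg⟩ := gauLE (Pool.Agent.Q218.WE.lip_of Pool.Agent.Q150.WE.t_LIPK)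
    Pool.Agent.Q95.LE.t_GAU Pool.Agent.Q91.LE.t_SPL Pool.Agent.Q257.LE.t_NET
    Pool.Agent.Q176.LE.t_CUBE
    (Pool.Agent.Q246.LE.EX.t_EXP Pool.Agent.Q237.LE.t_MEAS Pool.Agent.Q246.LE.t_FOUR)
    d (by omega) (D0 d) (D1 d)
    (freeE3 Pool.Agent.Q211.LE.t_SYM Pool.Agent.Q285.LE.t_THL d hd) ε hε
  refine ⟨l0, hl0, fun σ hσ hσ0 a ha => ?_⟩
  obtain ⟨h1, h2, h3⟩ := hg |σ| hσ hσ0 a ha
  have hmn : Measurable fun (ξ : (Fin d → ℤ) → ℝ) x => -ξ x := by fun_prop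
  have hP : ∀ G : Set ((Fin d → ℤ) → ℝ), MeasurableSet G → ∀ q : ℝ,
      (Measure.infinitePi fun _ : Fin d → ℤ => gaussianReal 0 1).real Gᶜ ≤ q →
      1 - q ≤ (Measure.infinitePi fun _ : Fin d → ℤ => gaussianReal 0 1).real G := by
    intro G hG q hq
    have := probReal_add_probReal_compl
      (μ := Measure.infinitePi fun _ : Fin d → ℤ => gaussianReal 0 1) hG
    linarith
  rcases lt_or_gt_of_ne (abs_pos.1 hσ) with hneg | hpos
  · have hωξ : ∀ (ξ : (Fin d → ℤ) → ℝ) x, -(σ * ξ x) = |σ| * ξ x := fun ξ x => by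
      rw [abs_of_neg hneg]
      ring
    refine ⟨fun b L hL => ?_, ?_, ?_⟩
    · obtain ⟨G, hG, hPG, hGd⟩ := h1 b L hL
      exact ⟨G, hG, hP G hG _ hPG, fun ξ hξ => ergodic_of_good (hωξ ξ) (hGd ξ hξ)⟩
    · obtain ⟨G, hG, hPG, hGd⟩ := h2
      exact ⟨G, hG, hP G hG _ hPG, fun ξ hξ b L hL hb =>
        ergodic_of_good (hωξ ξ) (hGd ξ hξ b L hL hb)⟩
    · filter_upwards [h3] with ξ hξ
      obtain ⟨L0, hL0⟩ := hξ
      exact ⟨L0, fun b L hL hb => ergodic_of_good (hωξ ξ) (hL0 b L hL hb)⟩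
  · have hωξ : ∀ (ξ : (Fin d → ℤ) → ℝ) x, -(σ * ξ x) = |σ| * -ξ x := fun ξ x => by
      rw [abs_of_pos hpos]
      ring
    have hmap : ∀ G : Set ((Fin d → ℤ) → ℝ), MeasurableSet G →
        (Measure.infinitePi fun _ : Fin d → ℤ => gaussianReal 0 1).real
          ((fun (ξ : (Fin d → ℤ) → ℝ) x => -ξ x) ⁻¹' G) =
        (Measure.infinitePi fun _ : Fin d → ℤ => gaussianReal 0 1).real G := by
      intro G hG
      rw [← map_measureReal_apply hmn hG, neg_law]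
    refine ⟨fun b L hL => ?_, ?_, ?_⟩
    · obtain ⟨G, hG, hPG, hGd⟩ := h1 b L hL
      refine ⟨(fun ξ x => -ξ x) ⁻¹' G, hmn hG, ?_, fun ξ hξ =>
        ergodic_of_good (hωξ ξ) (hGd _ hξ)⟩
      rw [hmap G hG]
      exact hP G hG _ hPG
    · obtain ⟨G, hG, hPG, hGd⟩ := h2
      refine ⟨(fun ξ x => -ξ x) ⁻¹' G, hmn hG, ?_, fun ξ hξ b L hL hb =>
        ergodic_of_good (hωξ ξ) (hGd _ hξ b L hL hb)⟩
      rw [hmap G hG]
      exact hP G hG _ hPG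
    · have h4 : ∀ᵐ ω ∂((Measure.infinitePi fun _ : Fin d → ℤ => gaussianReal 0 1).map
          fun ξ x => -ξ x), ∃ L0 : ℕ, ∀ (b : Fin d → ℤ) (L : ℕ), L0 ≤ L →
          Real.log (1 + ‖b‖) ≤ |σ| ^ (21 / 10 : ℝ) * (bx b L).card →
          Good d |σ| (206 / 100 / d) ε a ω b L := by
        rw [neg_law]
        exact h3
      filter_upwards [ae_of_ae_map hmn.aemeasurable h4] with ξ hξ
      obtain ⟨L0, hL0⟩ := hξ
      exact ⟨L0, fun b L hL hb => ergodic_of_good (hωξ ξ) (hL0 b L hL hb)⟩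

end Pool.Agent.Results.MP_1906c1_mp.LocalQuantumErgodicity
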