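import Pool.Agent.Q218.LE.Out
import Pool.Agent.Q218.WE.LipZ
import Pool.Agent.Q150.WE.LIPK
import Pool.Agent.Q95.LE.GAU
import Pool.Agent.Q91.LE.SPL
import Pool.Agent.Q257.LE.NET
import Pool.Agent.Q176.LE.CubeT
import Pool.Agent.Q246.LE.EXP
import Pool.Agent.Q246.LE.FOUR
import Pool.Agent.Q237.LE.MEAS
import Pool.Agent.Q211.LE.SYM
import Pool.Agent.Q285.LE.THL
import Pool.Agent.Q111.LE.UNI

set_option autoImplicit false

open scoped BigOperators ENNReal Topology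
open MeasureTheory Filter ProbabilityTheory

namespace Pool.Agent.Results.MP_562b47_mp.LocalQuantumErgodicity

open Pool.Agent.TH794.QD (hmk HS)
open Pool.Agent.H4R2.LO (bx)
open Pool.Agent.Q218.UD (D0 D1)
open Pool.Agent.Q218.LE

/-- the uniform law on `[-c, c]` -/
noncomputable def unif (c : ℝ) : Measure ℝ :=
  ENNReal.ofReal (1 / (2 * c)) • volume.restrict (Set.Icc (-c) c)

/-- `(Δ_ω u)(j) = -∑_{|n|=1} (u(j+n) - u(j)) + ω_j u(j)` -/
noncomputable def H {d : ℕ} (ω : (Fin d → ℤ) → ℝ) (u : (Fin d → ℤ) → ℂ) (j : Fin d → ℤ) : ℂ :=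
  -∑ i : Fin d, ((u (j + Pi.single i 1) - u j) + (u (j - Pi.single i 1) - u j)) + (ω j : ℂ) * u j

/-- the box `{x : |x_i - c_i| ≤ L for all i}` -/
noncomputable def box {d : ℕ} (c : Fin d → ℤ) (L : ℕ) : Finset (Fin d → ℤ) :=
  Fintype.piFinset fun i => Finset.Icc (c i - L) (c i + L)

/-- an orthonormal family in `ℓ²(ℤ^d)`, whose members satisfy the eigenvalue equation of `Δ_ω` at
the interior sites of the box with the centre `c` and the radius `L` -/
structure LocalEigenSystem {d : ℕ} (ω : (Fin d → ℤ) → ℝ) (c : Fin d → ℤ) (L : ℕ)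
    {J : Type} (φ : J → (Fin d → ℤ) → ℂ) (e : J → ℝ) : Prop where
  eigen : ∀ j x, ‖x - c‖ < L → H ω (φ j) x = (e j : ℂ) * φ j x
  norm : ∀ j, HasSum (fun x => ‖φ j x‖ ^ 2) 1
  orth : ∀ i j, i ≠ j → HasSum (fun x => (starRingEnd ℂ) (φ i x) * φ j x) 0

/-- the mean value of `f` over the box of radius `r` around `x` -/
noncomputable def average {d : ℕ} (r : ℕ) (f : (Fin d → ℤ) → ℝ) (x : Fin d → ℤ) : ℝ :=
  ((box x r).card : ℝ)⁻¹ * ∑ y ∈ box x r, f y

/-- **Local quantum ergodicity** for the observable `a` on the box `Λ` with the centre `b` and the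
radius `L`: whatever the amplitude `ρ`, `|ρ| ≤ 1`, with `|ρ(x) - ρ(y)| ≤ c^{2.06/d} |x - y|`, and
the radius `r ≤ c^{-2.011}` are, the expectation values of `f = a ρ` and of its local average
`f_r` in the eigenfunctions agree, in the sense that
`∑_j (∑_{x ∈ Λ} (f(x) - f_r(x)) |φ_j(x)|²)² ≤ ε |Λ|`, for every local eigensystem. -/
def Ergodic {d : ℕ} (c ε : ℝ) (ω a : (Fin d → ℤ) → ℝ) (b : Fin d → ℤ) (L : ℕ) : Prop :=
  ∀ ρ : (Fin d → ℤ) → ℝ, (∀ x, |ρ x| ≤ 1) →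
    (∀ x y, |ρ x - ρ y| ≤ c ^ (206 / 100 / d : ℝ) * ‖x - y‖) →
  ∀ r : ℕ, (r : ℝ) ≤ c ^ (-(2011 / 1000) : ℝ) →
  ∀ (J : Type) (φ : J → (Fin d → ℤ) → ℂ) (e : J → ℝ), LocalEigenSystem ω b L φ e →
  ∀ s : Finset J,
    ∑ j ∈ s, (∑ x ∈ box b L,
      (a x * ρ x - average r (fun y => a y * ρ y) x) * ‖φ j x‖ ^ 2) ^ 2 ≤ ε * (box b L).card

theorem ergodic_of_good {d : ℕ} {c ε : ℝ} (hc : 0 < c) {a ω : (Fin d → ℤ) → ℝ}
    {b : Fin d → ℤ} {L : ℕ}
    (h : Good d c (206 / 100 / d) ε a (fun x => ω x / c) b L) : Ergodic c ε ω a b L := by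
  intro ρ hρ1 hρ2 r hr J φ e hφ s
  exact h ρ hρ1 hρ2 r hr J (fun j => (hmk (φ j) (hφ.norm j).summable : HS d))
    (Pool.Agent.Q218.AD.ortho φ hφ.norm hφ.orth) (fun j => e j - 2 * d) (fun j x hx => by
      have h1 := hφ.eigen j x hx
      show -Pool.Agent.W788.LD.Spec.S (φ j) x + ((c * (ω x / c) : ℝ) : ℂ) * φ j x =
        ((e j - 2 * d : ℝ) : ℂ) * φ j x
      unfold H at h1
      unfold Pool.Agent.W788.LD.Spec.S
      have h2 : ∑ i : Fin d, ((φ j (x + Pi.single i 1) - φ j x) +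
          (φ j (x - Pi.single i 1) - φ j x)) =
          ∑ i : Fin d, (φ j (x + Pi.single i 1) + φ j (x - Pi.single i 1)) -
            2 * (d : ℂ) * φ j x := by
        rw [Finset.sum_add_distrib, Finset.sum_sub_distrib, Finset.sum_sub_distrib,
          Finset.sum_add_distrib]
        simp
        ring
      rw [h2] at h1
      have h3 : c * (ω x / c) = ω x := by field_simp
      rw [h3]
      push_cast
      linear_combination h1) s

/-- the uniform law on `[-c, c]` is the image of that on `[-1, 1]` -/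
theorem unif_scale (c : ℝ) (hc : 0 < c) :
    (unif c).map (fun s => s / c) = Pool.Agent.W788.LD.Uni.unif 1 := by
  have hm : Measurable fun s : ℝ => s / c := by fun_prop
  unfold unif Pool.Agent.W788.LD.Uni.unif
  rw [Measure.map_smul]
  have h1 : (volume.restrict (Set.Icc (-c) c)).map (fun s : ℝ => s / c) =
      ENNReal.ofReal c • volume.restrict (Set.Icc (-1) 1) := by
    have h2 : Set.Icc (-c) c = (fun s : ℝ => s / c) ⁻¹' Set.Icc (-1) 1 := by
      ext s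
      simp only [Set.mem_Icc, Set.mem_preimage]
      rw [le_div_iff₀ hc, div_le_iff₀ hc]
      constructor
      · rintro ⟨h3, h4⟩
        constructor <;> linarith
      · rintro ⟨h3, h4⟩
        constructor <;> linarith
    rw [h2, ← Measure.restrict_map hm measurableSet_Icc]
    have h3 : (volume : Measure ℝ).map (fun s : ℝ => s / c) = ENNReal.ofReal c • volume := by
      have h4 : (fun s : ℝ => s / c) = fun s => c⁻¹ * s := by
        funext s
        rw [div_eq_mul_inv, mul_comm]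
      rw [h4, Real.map_volume_mul_left (inv_ne_zero hc.ne'), inv_inv, abs_of_pos hc]
    rw [h3, Measure.restrict_smul]
  rw [h1, smul_smul, ← ENNReal.ofReal_mul (by positivity)]
  congr 2
  field_simp

/-- from the law on `[-1, 1]` to the law on `[-c, c]` -/
theorem main (d : ℕ) (h : Concl d (Pool.Agent.W788.LD.Uni.unif 1)) (ε : ℝ) (hε : 0 < ε) :
    ∃ c₀ : ℝ, 0 < c₀ ∧ ∀ c : ℝ, 0 < c → c ≤ c₀ →
      ∀ a : (Fin d → ℤ) → ℝ, (∀ x, |a x| ≤ 1) →
      (∀ (b : Fin d → ℤ) (L : ℕ), c ^ (-(21 / 10) : ℝ) ≤ L →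
        ∃ G : Set ((Fin d → ℤ) → ℝ), MeasurableSet G ∧
          1 - Real.exp (-(c ^ (206 / 100 : ℝ) * (box b L).card)) ≤
            (Measure.infinitePi fun _ : Fin d → ℤ => unif c).real G ∧
          ∀ ω ∈ G, Ergodic c ε ω a b L) ∧
      (∃ G : Set ((Fin d → ℤ) → ℝ), MeasurableSet G ∧
        1 - Real.exp (-c ^ (-(21 / 10) : ℝ)) ≤
          (Measure.infinitePi fun _ : Fin d → ℤ => unif c).real G ∧
        ∀ ω ∈ G, ∀ (b : Fin d → ℤ) (L : ℕ), c ^ (-(21 / 10) : ℝ) ≤ L →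
          Real.log (1 + ‖b‖) ≤ c ^ (21 / 10 : ℝ) * (box b L).card → Ergodic c ε ω a b L) ∧
      (∀ᵐ ω ∂(Measure.infinitePi fun _ : Fin d → ℤ => unif c),
        ∃ L₀ : ℕ, ∀ (b : Fin d → ℤ) (L : ℕ), L₀ ≤ L →
          Real.log (1 + ‖b‖) ≤ c ^ (21 / 10 : ℝ) * (box b L).card → Ergodic c ε ω a b L) := by
  obtain ⟨l0, hl0, hg⟩ := h ε hε
  refine ⟨l0, hl0, fun c hc hc0 a ha => ?_⟩
  obtain ⟨h1, h2, h3⟩ := hg c hc hc0 a ha
  have hu1 : IsProbabilityMeasure (Pool.Agent.W788.LD.Uni.unif 1) :=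
    Pool.Agent.W788.LD.Uni.unif_prob 1 one_pos
  have huc : IsProbabilityMeasure (unif c) := Pool.Agent.W788.LD.Uni.unif_prob c hc
  have hTm : Measurable (fun (ω : (Fin d → ℤ) → ℝ) x => ω x / c) := by fun_prop
  have hlaw : (Measure.infinitePi fun _ : Fin d → ℤ => unif c).map (fun ω x => ω x / c) =
      Measure.infinitePi fun _ : Fin d → ℤ => Pool.Agent.W788.LD.Uni.unif 1 := by
    have h1 := Measure.infinitePi_map_pi (μ := fun _ : Fin d → ℤ => unif c)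
      (f := fun _ (s : ℝ) => s / c) (fun _ => by fun_prop)
    rw [h1]
    congr 1
    funext _
    exact unif_scale c hc
  have hP : ∀ G : Set ((Fin d → ℤ) → ℝ), MeasurableSet G → ∀ q : ℝ,
      (Measure.infinitePi fun _ : Fin d → ℤ => Pool.Agent.W788.LD.Uni.unif 1).real Gᶜ ≤ q →
      1 - q ≤ (Measure.infinitePi fun _ : Fin d → ℤ => unif c).real
        ((fun (ω : (Fin d → ℤ) → ℝ) x => ω x / c) ⁻¹' G) := by
    intro G hG q hq
    have h4 := probReal_add_probReal_compl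
      (μ := Measure.infinitePi fun _ : Fin d → ℤ => Pool.Agent.W788.LD.Uni.unif 1) hG
    have h5 : (Measure.infinitePi fun _ : Fin d → ℤ => unif c).real
        ((fun (ω : (Fin d → ℤ) → ℝ) x => ω x / c) ⁻¹' G) =
        (Measure.infinitePi fun _ : Fin d → ℤ => Pool.Agent.W788.LD.Uni.unif 1).real G := by
      rw [← hlaw, map_measureReal_apply hTm hG]
    rw [h5]
    linarith
  refine ⟨fun b L hL => ?_, ?_, ?_⟩
  · obtain ⟨G, hG, hPG, hGd⟩ := h1 b L hL
    exact ⟨_, hTm hG, hP G hG _ hPG, fun ω hω => ergodic_of_good hc (hGd _ hω)⟩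
  · obtain ⟨G, hG, hPG, hGd⟩ := h2
    exact ⟨_, hTm hG, hP G hG _ hPG, fun ω hω b L hL hb =>
      ergodic_of_good hc (hGd _ hω b L hL hb)⟩
  · rw [← hlaw] at h3
    filter_upwards [ae_of_ae_map hTm.aemeasurable h3] with ω hω
    obtain ⟨L0, hL0⟩ := hω
    exact ⟨L0, fun b L hL hb => ergodic_of_good hc (hL0 b L hL hb)⟩

/-- **Theorem.** Uniform disorder, `d ≥ 2`. For every weight `a`, `|a| ≤ 1`, and every small `c`, the
expectation values of `a ρ` and of its local averages on the scale `c^{-2.011}` agree for almost all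
eigenfunctions (`Ergodic`): (i) for a given box of radius `L ≥ c^{-2.1}`, for all `ρ`, `r`, with
probability at least `1 - exp(-c^{2.06} |Λ|)`; (ii) with probability at least `1 - exp(-c^{-2.1})`
for all boxes with `log(1 + |b|) ≤ c^{2.1} |Λ|`; (iii) almost surely for all large boxes with this
property. -/
theorem result (d : ℕ) (hd : 2 ≤ d) (ε : ℝ) (hε : 0 < ε) :
    ∃ c₀ : ℝ, 0 < c₀ ∧ ∀ c : ℝ, 0 < c → c ≤ c₀ →
      ∀ a : (Fin d → ℤ) → ℝ, (∀ x, |a x| ≤ 1) →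
      (∀ (b : Fin d → ℤ) (L : ℕ), c ^ (-(21 / 10) : ℝ) ≤ L →
        ∃ G : Set ((Fin d → ℤ) → ℝ), MeasurableSet G ∧
          1 - Real.exp (-(c ^ (206 / 100 : ℝ) * (box b L).card)) ≤
            (Measure.infinitePi fun _ : Fin d → ℤ => unif c).real G ∧
          ∀ ω ∈ G, Ergodic c ε ω a b L) ∧
      (∃ G : Set ((Fin d → ℤ) → ℝ), MeasurableSet G ∧
        1 - Real.exp (-c ^ (-(21 / 10) : ℝ)) ≤
          (Measure.infinitePi fun _ : Fin d → ℤ => unif c).real G ∧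
        ∀ ω ∈ G, ∀ (b : Fin d → ℤ) (L : ℕ), c ^ (-(21 / 10) : ℝ) ≤ L →
          Real.log (1 + ‖b‖) ≤ c ^ (21 / 10 : ℝ) * (box b L).card → Ergodic c ε ω a b L) ∧
      (∀ᵐ ω ∂(Measure.infinitePi fun _ : Fin d → ℤ => unif c),
        ∃ L₀ : ℕ, ∀ (b : Fin d → ℤ) (L : ℕ), L₀ ≤ L →
          Real.log (1 + ‖b‖) ≤ c ^ (21 / 10 : ℝ) * (box b L).card → Ergodic c ε ω a b L) := by
  have hLIP := Pool.Agent.Q218.WE.lip_of Pool.Agent.Q150.WE.t_LIPK
  have hEXP := Pool.Agent.Q246.LE.EX.t_EXP Pool.Agent.Q237.LE.t_MEAS Pool.Agent.Q246.LE.t_FOUR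
  refine main d ?_ ε hε
  rcases hd.eq_or_lt with h | h
  · subst h
    exact uniLE hLIP Pool.Agent.Q95.LE.t_GAU Pool.Agent.Q91.LE.t_SPL Pool.Agent.Q257.LE.t_NET
      Pool.Agent.Q176.LE.t_CUBE hEXP Pool.Agent.Q111.LE.t_UNI 2 le_rfl _ _
      (freeE2 Pool.Agent.Q211.LE.t_SYM Pool.Agent.Q285.LE.t_THL)
  · exact uniLE hLIP Pool.Agent.Q95.LE.t_GAU Pool.Agent.Q91.LE.t_SPL Pool.Agent.Q257.LE.t_NET
      Pool.Agent.Q176.LE.t_CUBE hEXP Pool.Agent.Q111.LE.t_UNI d hd _ _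
      (freeE3 Pool.Agent.Q211.LE.t_SYM Pool.Agent.Q285.LE.t_THL d h)

end Pool.Agent.Results.MP_562b47_mp.LocalQuantumErgodicity
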