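import Pool.Agent.Q218.UD.LocG
import Pool.Agent.Results.MP_1906c1_mp.QuantumDiffusion

/-!
# Gaussian disorder, `d ≥ 3`: the localization length is larger than `|σ|^{-2.01}`

`H_σ = Δ + σ ξ` on `ℤ^d`, `d ≥ 3`, iid standard Gaussian `ξ`. Let `ε > 0` and `k` be given. For
`0 < |σ| ≤ σ₀(d, ε, k)`, with probability at least `1 - exp(-|σ|^{-1/4000})`: for every orthonormal
family of `ℓ²`-eigenfunctions `φ_j` of `H_σ` (with any energies) which decay exponentially,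
`|φ_j(x)| ≤ |σ|^{-k} exp(-|σ|^{2.01} |x - c_j|)` for some centres `c_j`, and for every site
`|a| ≤ exp(|σ|^{-1/4000})`, the sum of `|φ_j(a)|²` over `j` is at most `ε`.

So if the spectrum is pure point, then at every site all but the fraction `ε` of the spectral
measure comes from eigenfunctions whose localization length is larger than `|σ|^{-2.01}` (or whose
prefactor is larger than `|σ|^{-k}`). The kinetic scale is `σ⁻²`.
-/

set_option autoImplicit false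

open scoped BigOperators ENNReal Topology
open MeasureTheory Filter ProbabilityTheory

namespace Pool.Agent.Results.MP_1906c1_mp.LocalizationLength

open Pool.Agent.Results.MP_1906c1_mp.QuantumDiffusion (H neg_law)
open Pool.Agent.TH794.QD (Sol hmk)
open Pool.Agent.Q218.UD

/-- an orthonormal family of eigenfunctions in `ℓ²(ℤ^d)` -/
structure EigenSystem {d : ℕ} {J : Type} (σ : ℝ) (ξ : (Fin d → ℤ) → ℝ)
    (φ : J → (Fin d → ℤ) → ℂ) (e : J → ℝ) : Prop where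
  norm : ∀ j, HasSum (fun x => ‖φ j x‖ ^ 2) 1
  orth : ∀ i j, i ≠ j → HasSum (fun x => (starRingEnd ℂ) (φ i x) * φ j x) 0
  eigen : ∀ j x, H σ ξ (φ j) x = (e j : ℂ) * φ j x

theorem eig {d : ℕ} {J : Type} {σ : ℝ} {ξ : (Fin d → ℤ) → ℝ} {φ : J → (Fin d → ℤ) → ℂ}
    {e : J → ℝ} (h : EigenSystem σ ξ φ e) (j : J) (x : Fin d → ℤ) :
    -Pool.Agent.W788.LD.Spec.S (φ j) x + ((-(σ * ξ x) : ℝ) : ℂ) * φ j x =
      ((-e j : ℝ) : ℂ) * φ j x := by
  have h1 := h.eigen j x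
  unfold H at h1
  unfold Pool.Agent.W788.LD.Spec.S
  push_cast at h1 ⊢
  linear_combination (-1 : ℂ) * h1

/-- **Theorem.** -/
theorem result (d : ℕ) (hd : 3 ≤ d) (ε k : ℝ) (hε : 0 < ε) :
    ∃ σ₀ : ℝ, 0 < σ₀ ∧ ∀ σ : ℝ, 0 < |σ| → |σ| ≤ σ₀ →
      ∃ G : Set ((Fin d → ℤ) → ℝ), MeasurableSet G ∧
        1 - Real.exp (-|σ| ^ (-(1 / 4000) : ℝ)) ≤
          (Measure.infinitePi fun _ : Fin d → ℤ => gaussianReal 0 1).real G ∧
        ∀ ξ ∈ G, ∀ (J : Type) (φ : J → (Fin d → ℤ) → ℂ) (e : J → ℝ) (c : J → Fin d → ℤ),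
          EigenSystem σ ξ φ e →
          (∀ j x, ‖φ j x‖ ≤ |σ| ^ (-k) * Real.exp (-(|σ| ^ (201 / 100 : ℝ) * ‖x - c j‖))) →
          ∀ a : Fin d → ℤ, ‖a‖ ≤ Real.exp (|σ| ^ (-(1 / 4000) : ℝ)) →
            Summable (fun j => ‖φ j a‖ ^ 2) ∧ ∑' j, ‖φ j a‖ ^ 2 ≤ ε := by
  have hd1 : 1 ≤ d := by omega
  obtain ⟨K, ε', l1, hK, hε', hl1, hloc⟩ := locU hd1 (D0 d) (D1 d) (free3 d hd) ε k 1 hε one_pos
  obtain ⟨l0, hl0, hg⟩ := gauDif d (by omega) (D0 d) (D1 d) (free3 d hd)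
    (Set.indicator (Set.Ioc (1 : ℝ) 2) 1) ((integrable_indicator_iff measurableSet_Ioc).2 (by
      exact integrableOn_const (by simp))).integrableOn K ε' hK hε'
  refine ⟨min l0 (min l1 1), by positivity, fun σ hσ hσ0 => ?_⟩
  have b1 : |σ| ≤ l0 := hσ0.trans (min_le_left _ _)
  have b2 : |σ| ≤ l1 := hσ0.trans ((min_le_right _ _).trans (min_le_left _ _))
  have b3 : |σ| ≤ 1 := hσ0.trans ((min_le_right _ _).trans (min_le_right _ _))
  obtain ⟨G, hG, hPG, hL⟩ := hg |σ| hσ b1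
  -- the deterministic part
  have main : ∀ (ω ξ : (Fin d → ℤ) → ℝ), ω ∈ G → (∀ x, -(σ * ξ x) = 0 + |σ| * ω x) →
      ∀ (J : Type) (φ : J → (Fin d → ℤ) → ℂ) (e : J → ℝ) (c : J → Fin d → ℤ),
          EigenSystem σ ξ φ e →
          (∀ j x, ‖φ j x‖ ≤ |σ| ^ (-k) * Real.exp (-(|σ| ^ (201 / 100 : ℝ) * ‖x - c j‖))) →
          ∀ a : Fin d → ℤ, ‖a‖ ≤ Real.exp (|σ| ^ (-(1 / 4000) : ℝ)) →
            Summable (fun j => ‖φ j a‖ ^ 2) ∧ ∑' j, ‖φ j a‖ ^ 2 ≤ ε := by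
    intro ω ξ hω hωξ J φ e c hφ hdec a ha
    obtain ⟨ψ, hψ⟩ := exists_solU hd1 (fun x => 0 + |σ| * ω x) a
    have hall : ∀ q : Fin d → ℝ, ∑ i, q i ^ 2 ≤ K → _ := fun q hq =>
      hL ω hω a ha 0 ψ hψ (|σ| ^ (-(2024 / 1000) : ℝ))
        (Real.rpow_le_rpow_of_exponent_ge hσ b3 (by norm_num)) le_rfl q hq
    have hfin : ∀ s : Finset J, ∑ j ∈ s, ‖φ j a‖ ^ 2 ≤ ε := by
      intro s
      have key := hloc |σ| hσ b2 1 one_pos (by norm_num) (fun x => 0 + |σ| * ω x) a ψ hψ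
        (fun q hq => by
          have := hall q hq
          rw [mul_one]
          exact this) J
        (fun j => (hmk (φ j) (hφ.norm j).summable : Pool.Agent.TH794.QD.HS d))
        (Pool.Agent.Q218.AD.ortho φ hφ.norm hφ.orth) (fun j => -e j) (fun j x => by
          have := eig hφ j x
          rw [hωξ x] at this
          exact this) c hdec s
      exact key
    exact ⟨summable_of_sum_le (fun j => sq_nonneg _) hfin,
      Real.tsum_le_of_sum_le (fun j => sq_nonneg _) hfin⟩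
  rcases lt_or_gt_of_ne (abs_pos.1 hσ) with hneg | hpos
  · exact ⟨G, hG, hPG, fun ξ hξ => main ξ ξ hξ fun x => by
      rw [abs_of_neg hneg]
      ring⟩
  · have hmn : Measurable fun (ξ : (Fin d → ℤ) → ℝ) x => -ξ x := by fun_prop
    refine ⟨(fun ξ x => -ξ x) ⁻¹' G, hmn hG, ?_, fun ξ hξ => main (fun x => -ξ x) ξ hξ fun x => by
      rw [abs_of_pos hpos]
      ring⟩
    rw [← map_measureReal_apply hmn hG, neg_law]
    exact hPG

end Pool.Agent.Results.MP_1906c1_mp.LocalizationLength
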