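import Pool.Agent.Results.MP_28b024_mp.QuantumDiffusion
import Pool.Agent.Q218.AD.Loc6

/-!
# The localization length exceeds `λ^{-2.01}` for almost the whole spectral measure of every site

`H = -Δ + λ V_ω` on `ℤ^d`, `d ≥ 3`, `ω_x` iid with any law on `[-b, b]` of mean `M` and variance
`V ≥ v > 0` (no regularity is needed). Let `ε > 0` and `k` be given. For all `λ ≤ λ₀(d, b, v, ε, k)`,
with probability at least `1 - exp(-λ^{-1/101})` with respect to the disorder, the following holds: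
for every orthonormal family of eigenfunctions `φ_j` of `H` in `ℓ²(ℤ^d)` (of any energies) which
decay exponentially at the rate `λ^{2.01}`,

`|φ_j(x)| ≤ λ^{-k} exp(-λ^{2.01} |x - c_j|)` for all `x`, with some centres `c_j`,

and for every site `|a| ≤ exp(λ^{-1/101})`: `∑_j |φ_j(a)|² ≤ ε`.

For a complete orthonormal system the sum is `1`. So if the spectrum of `H` is pure point, then at
every site (not only on the average) all but the fraction `ε` of the spectral measure comes from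
eigenfunctions whose localization length is larger than `λ^{-2.01}`, which is beyond the kinetic
scale `λ^{-2}` (or for which the constant in front of the exponential function is larger than the
given power of `1 / λ`).
-/

set_option autoImplicit false

open scoped BigOperators ENNReal Topology
open MeasureTheory Filter

namespace Pool.Agent.Results.MP_28b024_mp.LocalizationLength

open Pool.Agent.Results.MP_28b024_mp.MobilityEdgeScale (H)
open Pool.Agent.Results.MP_28b024_mp.DiffusionProfile (g0 g1 D)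
open Pool.Agent.Results.MP_28b024_mp.QuantumDiffusion (IsEvolution evo_iff law h_eq)
open Pool.Agent.TH794.QD (Sol La GF F0 F1 hmk)
open Pool.Agent.Q218.AD

/-- `φ_j` is an orthonormal family in `ℓ²(ℤ^d)` of eigenfunctions of `H` with the energies `e_j` -/
structure EigenSystem {d : ℕ} (lam : ℝ) (ω : (Fin d → ℤ) → ℝ) {J : Type}
    (φ : J → (Fin d → ℤ) → ℂ) (e : J → ℝ) : Prop where
  eigen : ∀ j x, H lam ω (φ j) x = (e j : ℂ) * φ j x
  norm : ∀ j, HasSum (fun x => ‖φ j x‖ ^ 2) 1
  orth : ∀ i j, i ≠ j → HasSum (fun x => (starRingEnd ℂ) (φ i x) * φ j x) 0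

theorem law_small (d : ℕ) (hd : 3 ≤ d) (ε : ℝ) (hε : 0 < ε) : ∃ q0 : ℝ, 0 < q0 ∧
    ∀ Q s : ℝ, q0 ^ 2 ≤ Q → 1 ≤ s → 0 ≤ law d Q s ∧ law d Q s ≤ ε := by
  have hO := Pool.Agent.W918.BK.Osc.osc
  have hpi := Real.pi_pos
  obtain ⟨G0, hG0⟩ : ∃ G0 : ℝ → ℝ, G0 = fun E : ℝ => (GF (F0 d) (E : ℂ)).im := ⟨_, rfl⟩
  obtain ⟨G1, hG1⟩ : ∃ G1 : ℝ → ℝ, G1 = fun E : ℝ => (GF (F1 d) (E : ℂ)).im := ⟨_, rfl⟩
  have eg0 : ∀ E, (g0 d E).im = G0 E := fun E => by rw [hG0]; rfl
  have eg1 : ∀ E, (g1 d E).im = G1 E := fun E => by rw [hG1]; rfl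
  have eD : ∀ E, D d E = G1 E / G0 E ^ 2 := fun E => by
    unfold D
    rw [eg0, eg1]
  have c0 : Continuous G0 := by rw [hG0]; exact gf0_cont hO d hd
  have c1 : Continuous G1 := by rw [hG1]; exact gf1_cont hO d hd
  have m0 := c0.measurable
  have m1 := c1.measurable
  have n01 : ∀ E, 0 ≤ G1 E ∧ G1 E ≤ G0 E := by
    intro E
    rw [hG0, hG1]
    exact Pool.Agent.TH794.QD.GF_im hO d hd (E : ℂ) (by simp)
  have n1 : ∀ E, 0 ≤ G1 E := fun E => (n01 E).1
  have n0 : ∀ E, 0 ≤ G0 E := fun E => (n01 E).1.trans (n01 E).2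
  have hx : -(2 * (d : ℝ)) ≤ 2 * d := by
    have : (0 : ℝ) ≤ d := Nat.cast_nonneg d
    linarith
  have hlaw : ∀ Q s, law d Q s = ∫ E in (-(2 * (d : ℝ)))..(2 * (d : ℝ)),
      G0 E / Real.pi * Real.exp (-(2 * s * (G1 E / G0 E ^ 2) * Q)) := by
    intro Q s
    unfold law
    simp only [eg0, eD]
  have hbd : ∀ Q s E, 0 ≤ Q → 0 ≤ s → ‖G0 E / Real.pi *
      Real.exp (-(2 * s * (G1 E / G0 E ^ 2) * Q))‖ ≤ G0 E / Real.pi := by
    intro Q s E hQ hs
    have h1 := n0 E
    have h2 := n1 E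
    rw [Real.norm_of_nonneg (by positivity)]
    refine mul_le_of_le_one_right (by positivity) (Real.exp_le_one_iff.2 ?_)
    have : 0 ≤ 2 * s * (G1 E / G0 E ^ 2) * Q := by positivity
    linarith
  have hme : ∀ Q s, Measurable fun E => G0 E / Real.pi *
      Real.exp (-(2 * s * (G1 E / G0 E ^ 2) * Q)) := by
    intro Q s
    fun_prop
  have hii : ∀ Q s, 0 ≤ Q → 0 ≤ s → IntervalIntegrable (fun E => G0 E / Real.pi *
      Real.exp (-(2 * s * (G1 E / G0 E ^ 2) * Q))) volume (-(2 * (d : ℝ))) (2 * (d : ℝ)) := by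
    intro Q s hQ hs
    have h1 := ((c0.div_const Real.pi).intervalIntegrable (μ := volume) (-(2 * (d : ℝ)))
      (2 * (d : ℝ)))
    rw [intervalIntegrable_iff] at h1 ⊢
    exact Integrable.mono' h1 (hme Q s).aestronglyMeasurable
      (Filter.Eventually.of_forall fun E => hbd Q s E hQ hs)
  have hlim : Tendsto (fun n : ℕ => law d (((n : ℝ) + 1) ^ 2) 1) atTop (𝓝 0) := by
    simp only [hlaw]
    have h0 : (0 : ℝ) = ∫ _E in (-(2 * (d : ℝ)))..(2 * (d : ℝ)), (0 : ℝ) := by simp
    rw [h0]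
    refine intervalIntegral.tendsto_integral_filter_of_dominated_convergence
      (fun E => G0 E / Real.pi) ?_ ?_ ?_ ?_
    · exact Filter.Eventually.of_forall fun n => (hme _ _).aestronglyMeasurable
    · exact Filter.Eventually.of_forall fun n => Filter.Eventually.of_forall fun E _ =>
        hbd _ _ E (by positivity) zero_le_one
    · exact (c0.div_const Real.pi).intervalIntegrable _ _
    · have hne : ∀ᵐ E : ℝ ∂volume, E ≠ 2 * (d : ℝ) := by
        rw [ae_iff]
        simp
      filter_upwards [hne] with E hE1 hE2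
      rw [Set.uIoc_of_le hx] at hE2
      have h1 := (Pool.Agent.Results.MP_28b024_mp.QuantumDiffusion.result d hd).1.2 E
        (abs_lt.2 ⟨hE2.1, lt_of_le_of_ne hE2.2 hE1⟩)
      rw [eD] at h1
      have h2 : Tendsto (fun n : ℕ => 2 * 1 * (G1 E / G0 E ^ 2) * ((n : ℝ) + 1) ^ 2) atTop atTop := by
        apply Tendsto.const_mul_atTop
        · have := h1.2
          positivity
        · have h3 : Tendsto (fun n : ℕ => (n : ℝ) + 1) atTop atTop :=
            tendsto_natCast_atTop_atTop.atTop_add tendsto_const_nhds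
          exact (tendsto_pow_atTop two_ne_zero).comp h3
      have h3 := (Real.tendsto_exp_neg_atTop_nhds_zero.comp h2).const_mul (G0 E / Real.pi)
      rw [mul_zero] at h3
      exact h3
  obtain ⟨n, hn⟩ := (hlim.eventually_le_const hε).exists
  refine ⟨(n : ℝ) + 1, by positivity, fun Q s hQ hs => ?_⟩
  have hQ0 : 0 ≤ Q := le_trans (by positivity) hQ
  have hs0 : 0 ≤ s := by linarith
  rw [hlaw] at hn ⊢
  constructor
  · refine intervalIntegral.integral_nonneg hx fun E _ => ?_
    have h1 := n0 E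
    positivity
  · refine le_trans (intervalIntegral.integral_mono_on hx (hii Q s hQ0 hs0)
      (hii _ _ (by positivity) zero_le_one) fun E _ => ?_) hn
    have h1 := n0 E
    have h2 := n1 E
    refine mul_le_mul_of_nonneg_left (Real.exp_le_exp.2 ?_) (by positivity)
    have h3 : 0 ≤ G1 E / G0 E ^ 2 := by positivity
    have h4 : 2 * 1 * (G1 E / G0 E ^ 2) * ((n : ℝ) + 1) ^ 2 ≤ 2 * s * (G1 E / G0 E ^ 2) * Q := by
      gcongr
    linarith

/-- **Theorem.** -/
theorem result (d : ℕ) (hd : 3 ≤ d) (b v ε k : ℝ) (hb : 0 < b) (hv : 0 < v) (hε : 0 < ε) :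
    ∃ lam0 : ℝ, 0 < lam0 ∧
      ∀ (μ : Measure ℝ) [IsProbabilityMeasure μ], (∀ᵐ s ∂μ, |s| ≤ b) →
      ∀ M V : ℝ, ∫ s, s ∂μ = M → ∫ s, (s - M) ^ 2 ∂μ = V → v ≤ V →
      ∀ lam : ℝ, 0 < lam → lam ≤ lam0 →
      ∃ G : Set ((Fin d → ℤ) → ℝ), MeasurableSet G ∧
        1 - Real.exp (-lam ^ (-(1 / 101) : ℝ)) ≤
          (Measure.infinitePi fun _ : Fin d → ℤ => μ).real G ∧
        ∀ ω ∈ G, ∀ (J : Type) (φ : J → (Fin d → ℤ) → ℂ) (e : J → ℝ) (c : J → Fin d → ℤ),
          EigenSystem lam ω φ e →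
          (∀ j x, ‖φ j x‖ ≤ lam ^ (-k) * Real.exp (-(lam ^ (201 / 100 : ℝ) * ‖x - c j‖))) →
          ∀ a : Fin d → ℤ, ‖a‖ ≤ Real.exp (lam ^ (-(1 / 101) : ℝ)) →
            Summable (fun j => ‖φ j a‖ ^ 2) ∧ ∑' j, ‖φ j a‖ ^ 2 ≤ ε := by
  have hd1 : 1 ≤ d := by omega
  -- the number of the frequencies
  obtain ⟨N, hN⟩ := exists_nat_gt (32 / ε)
  have hN0 : (0 : ℝ) < N := lt_trans (by positivity) hN
  have hN1 : 1 ≤ N := by
    have : (0 : ℕ) < N := by exact_mod_cast hN0
    omega
  have hN4 : 4 / (N : ℝ) ≤ ε / 8 := by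
    rw [div_le_div_iff₀ hN0 (by norm_num)]
    rw [div_lt_iff₀ hε] at hN
    linarith
  obtain ⟨q0, hq0, hlaw⟩ := law_small d hd (ε / 64) (by positivity)
  obtain ⟨lam1, hlam1, hres⟩ := (Pool.Agent.Results.MP_28b024_mp.QuantumDiffusion.result d hd).2
    (Set.indicator (Set.Ioc (1 : ℝ) 2) 1)
    ((integrable_indicator_iff measurableSet_Ioc).2 (by
      exact integrableOn_const (by simp))).integrableOn b v ((N * q0) ^ 2) (ε / 64) hb hv
    (by positivity) (by positivity)
  obtain ⟨l2, hl2, hs2⟩ := small_rpow (1 / 1000) (1 / (2 * b * q0 * N)) (by norm_num)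
    (by positivity)
  obtain ⟨l3, hl3, hs3⟩ := loc_num d k (ε / 4) (by positivity)
  refine ⟨min lam1 (min l2 (min l3 1)), by positivity, ?_⟩
  intro μ hμ hμb M V hM hV hvV lam hlam hlam0
  have hlam1' : lam ≤ lam1 := hlam0.trans (min_le_left _ _)
  have hlam2' : lam ≤ l2 := hlam0.trans ((min_le_right _ _).trans (min_le_left _ _))
  have hlam3' : lam ≤ l3 :=
    hlam0.trans ((min_le_right _ _).trans ((min_le_right _ _).trans (min_le_left _ _)))
  have hlam4' : lam ≤ 1 :=
    hlam0.trans ((min_le_right _ _).trans ((min_le_right _ _).trans (min_le_right _ _)))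
  obtain ⟨G, hG, hPG, hdif⟩ := hres μ hμb M V hM hV hvV lam hlam hlam1'
  have hV0 : 0 < V := hv.trans_le hvV
  -- the variance
  have hVb : V ≤ b ^ 2 := by
    have hi1 : Integrable (fun s : ℝ => s) μ := by
      refine Integrable.mono' (integrable_const b) (by fun_prop) ?_
      filter_upwards [hμb] with s hs
      exact hs
    have hi2 : Integrable (fun s : ℝ => s ^ 2) μ := by
      refine Integrable.mono' (integrable_const (b ^ 2)) (by fun_prop) ?_
      filter_upwards [hμb] with s hs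
      rw [norm_pow, Real.norm_eq_abs]
      exact pow_le_pow_left₀ (abs_nonneg _) hs 2
    have h1 : V = ∫ s, s ^ 2 ∂μ - M ^ 2 := by
      rw [← hV]
      have h2 : ∀ s : ℝ, (s - M) ^ 2 = s ^ 2 - 2 * M * s + M ^ 2 := fun s => by ring
      simp only [h2]
      have hi3 : Integrable (fun s : ℝ => s ^ 2 - 2 * M * s) μ := hi2.sub (hi1.const_mul _)
      rw [integral_add hi3 (integrable_const _), integral_sub hi2 (hi1.const_mul _),
        integral_const_mul, hM, integral_const, probReal_univ, one_smul]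
      ring
    have h2 : ∫ s, s ^ 2 ∂μ ≤ ∫ _s : ℝ, b ^ 2 ∂μ := by
      refine integral_mono_ae hi2 (integrable_const _) ?_
      filter_upwards [hμb] with s hs
      rw [← sq_abs]
      exact pow_le_pow_left₀ (abs_nonneg _) hs 2
    rw [integral_const, probReal_univ, one_smul] at h2
    nlinarith [sq_nonneg M]
  refine ⟨G ∩ {ω | ∀ x, |ω x| ≤ b}, ?_, ?_, ?_⟩
  · refine hG.inter ?_
    rw [Set.ofPred_forall]
    exact MeasurableSet.iInter fun x => measurableSet_le (by fun_prop) measurable_const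
  · have hae : ∀ᵐ ω ∂(Measure.infinitePi fun _ : Fin d → ℤ => μ), ∀ x, |ω x| ≤ b := by
      rw [ae_all_iff]
      intro x
      have h1 := (measurePreserving_eval_infinitePi (fun _ : Fin d → ℤ => μ) x)
      exact h1.quasiMeasurePreserving.ae hμb
    have h2 : (Measure.infinitePi fun _ : Fin d → ℤ => μ) (G ∩ {ω | ∀ x, |ω x| ≤ b}) =
        (Measure.infinitePi fun _ : Fin d → ℤ => μ) G := by
      apply measure_congr
      filter_upwards [hae] with ω hω
      apply propext
      constructor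
      · exact fun h => h.1
      · exact fun h => ⟨h, hω⟩
    rw [measureReal_def, h2]
    exact hPG
  intro ω hω J φ e c hφ hdec a ha
  have hVb' : ∀ x, |2 * (d : ℝ) + lam * ω x| ≤ 2 * d + lam * b := by
    intro x
    refine (abs_add_le _ _).trans ?_
    rw [abs_of_nonneg (by positivity : (0 : ℝ) ≤ 2 * d), abs_mul, abs_of_pos hlam]
    have := mul_le_mul_of_nonneg_left (hω.2 x) hlam.le
    linarith
  obtain ⟨⟨ψ, hψ⟩, hall⟩ := hdif ω hω.1 a ha
  have hS := (evo_iff lam ω a ψ).1 hψ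
  obtain ⟨T, hT⟩ : ∃ T : ℝ, T = lam ^ (-(2024 / 1000) : ℝ) := ⟨_, rfl⟩
  have hT0 : 0 < T := by rw [hT]; positivity
  have hall' := hall ψ hψ T (by
    rw [hT]
    exact Real.rpow_le_rpow_of_exponent_ge hlam hlam4' (by norm_num)) hT.le
  obtain ⟨β, hβ⟩ : ∃ β, β = Real.sqrt (lam ^ 2 * V / T) := ⟨_, rfl⟩
  have hβ0 : 0 ≤ β := by rw [hβ]; exact Real.sqrt_nonneg _
  obtain ⟨R, hR⟩ : ∃ R : ℝ, R = lam ^ (-(2011 / 1000) : ℝ) := ⟨_, rfl⟩
  have hR0 : 0 < R := by rw [hR]; positivity
  have hβR : β * (q0 * R) * N ≤ 1 := by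
    have h1 : β ≤ b * lam ^ (2012 / 1000 : ℝ) := by
      rw [hβ]
      apply Real.sqrt_le_iff.2
      refine ⟨by positivity, ?_⟩
      have h2 : (lam ^ (2012 / 1000 : ℝ)) ^ 2 = lam ^ 2 / T := by
        rw [hT, ← Real.rpow_natCast, ← Real.rpow_mul hlam.le, ← Real.rpow_natCast lam 2,
          ← Real.rpow_sub hlam]
        norm_num
      rw [mul_pow, h2]
      have h3 : lam ^ 2 * V / T = V * (lam ^ 2 / T) := by ring
      rw [h3]
      gcongr
    have h2 := hs2 lam hlam hlam2'
    have h3 : lam ^ (2012 / 1000 : ℝ) * R = lam ^ (1 / 1000 : ℝ) := by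
      rw [hR, ← Real.rpow_add hlam]
      norm_num
    calc β * (q0 * R) * N ≤ b * lam ^ (2012 / 1000 : ℝ) * (q0 * R) * N := by gcongr
      _ = b * q0 * N * (lam ^ (2012 / 1000 : ℝ) * R) := by ring
      _ = b * q0 * N * lam ^ (1 / 1000 : ℝ) := by rw [h3]
      _ ≤ b * q0 * N * (1 / (2 * b * q0 * N)) := by gcongr
      _ = 1 / 2 := by field_simp
      _ ≤ 1 := by norm_num
  obtain ⟨hn1, hn2, hn3⟩ := hs3 lam hlam hlam3'
  have hfin : ∀ s : Finset J, ∑ j ∈ s, ‖φ j a‖ ^ 2 ≤ ε := by
    intro s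
    have key := loc_main hd1 hS (2 * d + lam * b) hVb'
      (fun j => (hmk (φ j) (hφ.norm j).summable : Pool.Agent.TH794.QD.HS d))
      (ortho φ hφ.norm hφ.orth) e (fun j x => by
        have := hφ.eigen j x
        rw [h_eq] at this
        exact this)
      (lam ^ (201 / 100 : ℝ)) (by positivity) hn1 (lam ^ (-k)) R hR0.le c hdec (by
        rw [hR]
        exact hn2) (16 / ε) (by positivity) ⟨0, by omega⟩ N hN1 q0 T β (ε / 32) hq0 hβ0 hβR
      (by positivity) (fun q h1 h2 => by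
        have h3 := hall' q h2
        obtain ⟨P, hP⟩ : ∃ P : ℝ → ℂ, P = fun s => Phi ψ (fun x => Complex.exp (Complex.I *
          ((β * ∑ i, q i * ((x i : ℝ) - a i) : ℝ) : ℂ))) (s * T) := ⟨_, rfl⟩
        have e1 : ∀ s, (∑' x, Complex.exp (Complex.I *
            ((Real.sqrt (lam ^ 2 * V / T) * ∑ i, q i * ((x i : ℝ) - a i) : ℝ) : ℂ)) *
            ((‖ψ (s * T) x‖ ^ 2 : ℝ) : ℂ)) = P s := by
          intro s
          rw [hP, hβ]
          rfl
        simp only [e1] at h3
        have e2 : ∫ s in Set.Ioi (0 : ℝ), ((Set.indicator (Set.Ioc (1 : ℝ) 2) 1 s : ℝ) : ℂ) * P s =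
            ∫ s in Set.Ioc (1 : ℝ) 2, P s := by
          have h4 : ∀ s : ℝ, ((Set.indicator (Set.Ioc (1 : ℝ) 2) 1 s : ℝ) : ℂ) * P s =
              Set.indicator (Set.Ioc (1 : ℝ) 2) P s := by
            intro s
            by_cases hs : s ∈ Set.Ioc (1 : ℝ) 2
            · rw [Set.indicator_of_mem hs, Set.indicator_of_mem hs, Pi.one_apply,
                Complex.ofReal_one, one_mul]
            · rw [Set.indicator_of_notMem hs, Set.indicator_of_notMem hs, Complex.ofReal_zero,
                zero_mul]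
          simp only [h4]
          rw [setIntegral_indicator measurableSet_Ioc]
          congr 2
          ext s
          simp only [Set.mem_inter_iff, Set.mem_Ioi, Set.mem_Ioc]
          constructor
          · exact fun h => h.2
          · exact fun h => ⟨by linarith [h.1], h⟩
        have e3 : ∫ s in Set.Ioi (0 : ℝ), Set.indicator (Set.Ioc (1 : ℝ) 2) 1 s *
            law d (∑ i, q i ^ 2) s = ∫ s in Set.Ioc (1 : ℝ) 2, law d (∑ i, q i ^ 2) s := by
          have h4 : ∀ s : ℝ, Set.indicator (Set.Ioc (1 : ℝ) 2) 1 s * law d (∑ i, q i ^ 2) s =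
              Set.indicator (Set.Ioc (1 : ℝ) 2) (law d (∑ i, q i ^ 2)) s := by
            intro s
            by_cases hs : s ∈ Set.Ioc (1 : ℝ) 2
            · rw [Set.indicator_of_mem hs, Set.indicator_of_mem hs, Pi.one_apply, one_mul]
            · rw [Set.indicator_of_notMem hs, Set.indicator_of_notMem hs, zero_mul]
          simp only [h4]
          rw [setIntegral_indicator measurableSet_Ioc]
          congr 2
          ext s
          simp only [Set.mem_inter_iff, Set.mem_Ioi, Set.mem_Ioc]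
          constructor
          · exact fun h => h.2
          · exact fun h => ⟨by linarith [h.1], h⟩
        rw [e2, e3] at h3
        have h4 : ‖((∫ s in Set.Ioc (1 : ℝ) 2, law d (∑ i, q i ^ 2) s : ℝ) : ℂ)‖ ≤ ε / 64 := by
          rw [Complex.norm_real]
          refine (norm_setIntegral_le_of_norm_le_const (C := ε / 64) (by simp)
            fun s hs => ?_).trans ?_
          · obtain ⟨h5, h6⟩ := hlaw _ s h1 hs.1.le
            rw [Real.norm_of_nonneg h5]
            exact h6
          · rw [Real.volume_real_Ioc_of_le (by norm_num)]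
            norm_num
        have h5 := norm_le_norm_sub_add (∫ s in Set.Ioc (1 : ℝ) 2, P s)
          ((∫ s in Set.Ioc (1 : ℝ) 2, law d (∑ i, q i ^ 2) s : ℝ) : ℂ)
        rw [← hP]
        linarith) s
    have e1 : ∀ j, (hmk (φ j) (hφ.norm j).summable : Pool.Agent.TH794.QD.HS d) a = φ j a :=
      fun j => rfl
    simp only [e1] at key
    have h16 : (16 / ε)⁻¹ = ε / 16 := by rw [inv_div]
    have h4e : 4 / (ε / 4) = 16 / ε := by
      field_simp
      norm_num
    rw [h4e] at hn3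
    rw [hR, h16] at key
    have : 0 < ε := hε
    linarith
  exact ⟨summable_of_sum_le (fun j => sq_nonneg _) hfin,
    Real.tsum_le_of_sum_le (fun j => sq_nonneg _) hfin⟩

end Pool.Agent.Results.MP_28b024_mp.LocalizationLength
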